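import Pool.Agent.H261R3.LN.Stmts
import Pool.Agent.H261R3.LD.Defs

/-! Project LM (MP_e25190_gt): (A) locally isometric coverings, (B) the linear lower bound for
targets with infinite fundamental group. Definitions and tasks. -/

set_option autoImplicit false

open scoped NNReal ENNReal unitInterval

namespace Pool.Agent.H261R3.LN

open Pool.Agent.H261R3.LH (Lip1 IsLNR clip clip_nonneg)
open Pool.Agent.H261R3.LD (LipCurve distLip diamLip)

/-- A locally isometric covering map. -/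
structure IsMetricCover {E S : Type} [MetricSpace E] [MetricSpace S] (π : E → S) : Prop where
  covering : IsCoveringMap π
  surj : Function.Surjective π
  isom : ∃ ε : ℝ, 0 < ε ∧ ∀ a b, dist a b < ε → dist (π a) (π b) = dist a b

/-- Task Lift: 1-Lipschitz maps on hyperbolic space lift to 1-Lipschitz maps. -/
def TaskLift : Prop := ∀ (m : ℕ) (E S : Type) [MetricSpace E] [MetricSpace S] (π : E → S),
  IsMetricCover π → ∀ F : Hyp m → S, (∀ z w, dist (F z) (F w) ≤ hdist z w) →
    ∃ F' : Hyp m → E, (∀ z w, dist (F' z) (F' w) ≤ hdist z w) ∧ ∀ z, π (F' z) = F z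

/-- Task CovLip: a locally isometric covering of a compact space is globally Lipschitz. -/
def TaskCovLip : Prop := ∀ (E S : Type) [MetricSpace E] [CompactSpace E] [MetricSpace S]
  (π : E → S), IsMetricCover π → ∃ C : ℝ, 1 ≤ C ∧ ∀ a b, dist (π a) (π b) ≤ C * dist a b

/-- Lipschitz paths. -/
def PLip {S : Type} [MetricSpace S] {x y : S} (C : ℝ) (γ : Path x y) : Prop :=
  ∀ s t : I, dist (γ s) (γ t) ≤ C * |(s : ℝ) - t|

/-- Task LBFin: finitely many classes of loops have a `C`-Lipschitz representative. -/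
def TaskLBFin : Prop := ∀ (S : Type) [MetricSpace S] [CompactSpace S], IsLNR S →
  ∀ (p : S) (C : ℝ), Set.Finite {c : Path.Homotopic.Quotient p p |
    ∃ γ : Path p p, PLip C γ ∧ Path.Homotopic.Quotient.mk γ = c}

/-- Task LBVar: paths of bounded variation are homotopic to Lipschitz paths. -/
def TaskLBVar : Prop := ∀ (S : Type) [MetricSpace S] [CompactSpace S], IsLNR S →
  ∃ K : ℝ, 0 < K ∧ ∀ (x y : S) (γ : Path x y) (L : ℝ≥0),
    eVariationOn (fun t : I => γ t) Set.univ ≤ L →
      ∃ γ' : Path x y, γ.Homotopic γ' ∧ PLip (K * (L + 1)) γ'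

/-- Task LBRep: every path is homotopic to a Lipschitz path. -/
def TaskLBRep : Prop := ∀ (S : Type) [MetricSpace S] [CompactSpace S], IsLNR S →
  ∀ (x y : S) (γ : Path x y), ∃ (C : ℝ) (γ' : Path x y), γ.Homotopic γ' ∧ PLip C γ'

/-- Task LBConcat: concatenation with optimal speed. -/
def TaskLBConcat : Prop := ∀ (S : Type) [MetricSpace S] (x y z : S) (u : Path x y) (v : Path y z)
  (A B : ℝ), 0 < A → 0 < B → PLip A u → PLip B v →
    ∃ w : Path x z, w.Homotopic (u.trans v) ∧ PLip (A + B) w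

/-- Task LBSplit: cutting a Lipschitz loop at time `r`. -/
def TaskLBSplit : Prop := ∀ (S : Type) [MetricSpace S] (x y : S) (γ : Path x y) (C : ℝ),
  PLip C γ → ∀ r : I, 0 < (r : ℝ) → (r : ℝ) < 1 →
    ∃ (α : Path x (γ r)) (β : Path (γ r) y), γ.Homotopic (α.trans β) ∧
      (∀ s : I, α s = γ (r * s)) ∧ PLip (C * (1 - r)) β

/-- Task LBSquare: the two end tracks of a homotopy to a constant map. -/
def TaskLBSquare : Prop := ∀ (S X : Type) [MetricSpace S] [MetricSpace X] (c : ℝ≥0) (f : X → S)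
  (q : S) (H : LipCurve X S c f (fun _ => q)) (R : ℝ) (_ : 0 < R) (ρ : I → X),
    (∀ s t, dist (ρ s) (ρ t) ≤ R * |(s : ℝ) - t|) → ∀ (α : Path (f (ρ 0)) (f (ρ 1))),
      (∀ s, α s = f (ρ s)) → ∃ (a : Path (f (ρ 0)) q) (b : Path (f (ρ 1)) q),
        (∀ t, a t = H.F t (ρ 0)) ∧ (∀ t, b t = H.F t (ρ 1)) ∧ α.Homotopic (a.trans b.symm)

/-- The linear lower bound, abstractly: `X` is a metric space with a base point `o` and, for the
given `R`, a geodesic of length `R` starting at `o`; all points have distance at most `R`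
from `o`. -/
def LowerBd : Prop := ∀ (S : Type) [MetricSpace S] [CompactSpace S], IsLNR S → ∀ p : S,
  Infinite (Path.Homotopic.Quotient p p) → ∃ δ A : ℝ, 0 < δ ∧ ∀ (X : Type) [MetricSpace X] (o : X)
    (R : ℝ) (_ : 0 < R) (ρ : I → X), (∀ x : X, dist x o ≤ R) → (∀ s t, dist (ρ s) (ρ t) ≤ R * |(s : ℝ) - t|) →
      ρ 0 = o → (∀ s, dist (ρ s) o = R * s) → ∀ c : ℝ≥0, 1 ≤ c →
        ENNReal.ofReal (δ * R - A) ≤ diamLip X S c 1

/-- Task LBFinal. -/
def TaskLBFinal : Prop := TaskLBFin → TaskLBVar → TaskLBRep → TaskLBConcat → TaskLBSplit →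
  TaskLBSquare → LowerBd

/-- Task HypRay: the vertical geodesic ray in hyperbolic space. -/
def TaskHypRay : Prop := ∀ (m : ℕ) (R : ℝ), 0 < R → ∃ ρ : I → Hyp m, ρ 0 = origin m ∧
  (∀ s t, hdist (ρ s) (ρ t) = R * |(s : ℝ) - t|)

end Pool.Agent.H261R3.LN
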