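import Pool.Agent.H261R3.LN.Main
import Pool.Agent.H261R3.LN.LStmts
import Pool.Agent.H261R3.LH.Fin

set_option autoImplicit false

open scoped NNReal ENNReal

namespace Pool.Agent.H261R3.LN

open Pool.Agent.H261R3.LD (LipCurve distLip diamLip)
open Pool.Agent.H261R3.LH (Lip1 IsLNR evar_le glueR)

/-- abstract upper bound -/
theorem diam_upper {X S : Type} [MetricSpace X] [MetricSpace S] (o : X) (p : S) (C : ℝ)
    (hC : 0 ≤ C)
    (hH : ∀ F : X → S, (∀ z w, dist (F z) (F w) ≤ dist z w) →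
      ∃ H : ℝ → X → S, (∀ t z w, dist (H t z) (H t w) ≤ C * dist z w) ∧
        (∀ z, Lip1 C (fun t => H t z)) ∧ (∀ z, H 0 z = F z) ∧ ∀ z, H 1 z = p)
    (R : ℝ) (ρ : X → X) (h1 : ∀ z, dist (ρ z) o ≤ R) (h2 : ∀ z, dist z o ≤ R → ρ z = z)
    (h3 : ∀ z w, dist (ρ z) (ρ w) ≤ dist z w) (c : ℝ≥0) (hcC : C ≤ c) :
    diamLip (Metric.closedBall o R) S c 1 ≤ ((2 * ⟨C, hC⟩ : ℝ≥0) : ℝ≥0∞) := by
  have key : ∀ f : Metric.closedBall o R → S, LipschitzWith 1 f →
      ∃ H : ℝ → Metric.closedBall o R → S,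
      (∀ t z w, dist (H t z) (H t w) ≤ C * dist z w) ∧ (∀ z, Lip1 C (fun t => H t z)) ∧
      (∀ z, H 0 z = f z) ∧ ∀ z, H 1 z = p := by
    intro f hf
    obtain ⟨H, k1, k2, k3, k4⟩ := hH (fun z => f ⟨ρ z, h1 z⟩) (fun z w => by
      refine (hf.dist_le_mul _ _).trans ?_
      rw [NNReal.coe_one, one_mul]
      exact h3 z w)
    refine ⟨fun t z => H t z.1, fun t z w => k1 t z.1 w.1, fun z => k2 z.1, fun z => ?_,
      fun z => k4 z.1⟩
    change H 0 z.1 = f z
    rw [k3 z.1]
    congr 1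
    exact Subtype.ext (h2 z.1 z.2)
  unfold diamLip
  refine iSup_le fun f => iSup_le fun hf => iSup_le fun g => iSup_le fun hg => ?_
  obtain ⟨H, a1, a2, a3, a4⟩ := key f hf
  obtain ⟨H', b1, b2, b3, b4⟩ := key g hg
  let Φ : ℝ → Metric.closedBall o R → S := fun t z =>
    if t ≤ 1 / 2 then H (2 * t) z else H' (2 - 2 * t) z
  have hΦ : ∀ z, Lip1 (2 * C) (fun t => Φ t z) := by
    intro z
    refine glueR (1 / 2) (f := fun t => H (2 * t) z) (g := fun t => H' (2 - 2 * t) z) ?_ ?_ ?_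
    · intro x y
      refine (a2 z (2 * x) (2 * y)).trans (le_of_eq ?_)
      rw [← mul_sub, abs_mul, abs_two]; ring
    · intro x y
      refine (b2 z (2 - 2 * x) (2 - 2 * y)).trans (le_of_eq ?_)
      have : (2 : ℝ) - 2 * x - (2 - 2 * y) = -(2 * (x - y)) := by ring
      rw [this, abs_neg, abs_mul, abs_two]; ring
    · norm_num
      rw [a4, b4]
  let γ : LipCurve (Metric.closedBall o R) S c f g :=
    { F := fun t z => Φ t z
      lip := by
        intro t
        apply LipschitzWith.of_dist_le_mul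
        intro z w
        have h5 : C * dist z w ≤ c * dist z w := mul_le_mul_of_nonneg_right hcC dist_nonneg
        refine le_trans ?_ h5
        simp only [Φ]
        split_ifs
        · exact a1 _ z w
        · exact b1 _ z w
      cont := by
        intro z
        have h5 : LipschitzWith (2 * ⟨C, hC⟩ : ℝ≥0) (fun t => Φ t z) :=
          LipschitzWith.of_dist_le_mul fun x y => by
            rw [Real.dist_eq]; exact hΦ z x y
        exact h5.continuous.comp continuous_subtype_val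
      start := by
        funext z
        simp [Φ, a3]
      finish := by
        funext z
        simp only [Φ]
        rw [if_neg (by norm_num)]
        norm_num
        exact b3 z }
  refine (iInf_le _ γ).trans ?_
  unfold LipCurve.length
  refine iSup_le fun z => ?_
  have h6 := evar_le (K := (2 * ⟨C, hC⟩ : ℝ≥0)) (φ := fun t => Φ t z) (fun x y => by
    refine (hΦ z x y).trans (le_of_eq ?_)
    rfl)
  exact h6

/-- The hyperbolic metric (curvature -1) on the upper half space. -/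
noncomputable def hypMetric (hT : TaskTriN) (m : ℕ) : MetricSpace (Hyp m) where
  dist := hdist
  dist_self z := (hT m z z z).2.2.1
  dist_comm z w := (hT m z w z).2.2.2.1
  dist_triangle z w v := (hT m z w v).1
  eq_of_dist_eq_zero {z w} h := (hT m z w z).2.1 h

theorem cover_main (hM : MainN) (hL : TaskLift) (hCL : TaskCovLip) (m : ℕ) (E S : Type)
    [MetricSpace E] [CompactSpace E] [MetricSpace S] (hE : IsLNR E) (p : E)
    (hc : ∀ q ≤ m + 1, Subsingleton (HomotopyGroup (Fin q) E p)) (π : E → S)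
    (hπ : IsMetricCover π) :
    ∃ C : ℝ, 1 ≤ C ∧ ∀ F : Hyp (m + 1) → S, (∀ z w, dist (F z) (F w) ≤ hdist z w) →
      ∃ H : ℝ → Hyp (m + 1) → S, (∀ t z w, dist (H t z) (H t w) ≤ C * hdist z w) ∧
        (∀ z, Lip1 C (fun t => H t z)) ∧ (∀ z, H 0 z = F z) ∧ ∀ z, H 1 z = π p := by
  obtain ⟨C, hC, hH⟩ := hM m E hE p hc
  obtain ⟨C', hC', hlip⟩ := hCL E S π hπ
  have hnn : ∀ z w : Hyp (m + 1), 0 ≤ hdist z w := by
    intro z w
    unfold hdist
    apply Real.arcosh_nonneg
    have := z.pos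
    have := w.pos
    have : 0 ≤ (‖z.x - w.x‖ ^ 2 + (z.y - w.y) ^ 2) / (2 * z.y * w.y) := by positivity
    linarith
  have hC0 : 0 ≤ C' := by linarith
  refine ⟨C' * C + 1, by nlinarith, fun F hF => ?_⟩
  obtain ⟨F', h1, h2⟩ := hL (m + 1) E S π hπ F hF
  obtain ⟨H, k1, k2, k3, k4⟩ := hH F' h1
  refine ⟨fun t z => π (H t z), fun t z w => ?_, fun z x y => ?_, fun z => ?_, fun z => ?_⟩
  · have h5 := hlip (H t z) (H t w)
    have h6 := mul_le_mul_of_nonneg_left (k1 t z w) hC0
    have h7 := hnn z w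
    nlinarith
  · have h5 := hlip (H x z) (H y z)
    have h6 := mul_le_mul_of_nonneg_left (k2 z x y) hC0
    have h7 := abs_nonneg (x - y)
    dsimp only at h6 ⊢
    nlinarith
  · change π (H 0 z) = F z
    rw [k3, h2]
  · change π (H 1 z) = π p
    rw [k4]

end Pool.Agent.H261R3.LN
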