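import Pool.Agent.H261R3.LN.UStmts

/-! Project LS (MP_e25190_gt): ALL simply connected compact Lipschitz neighbourhood retracts, all
dimensions. Definitions and tasks. Walls of level `j`: `x i = 2^j (n + 1/6)`. -/

set_option autoImplicit false

open scoped NNReal ENNReal unitInterval

namespace Pool.Agent.H261R3.LN

open Pool.Agent.H261R3.LH (Lip1 IsLNR clip clip_nonneg TaskPath TaskNul)

/-- All coordinates of `x` are at distance at least `a` from the walls of level `j`. -/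
def Far {m : ℕ} (j : ℤ) (a : ℝ) (x : Fin m → ℝ) : Prop :=
  ∀ (i : Fin m) (n : ℤ), a ≤ |x i - 2 ^ j * (n + 1 / 6)|

section
variable {S : Type} [MetricSpace S]

/-- Lipschitz maps of hyperbolic space in the coordinates `x`, `η = log₂ y`. -/
def HL {m : ℕ} (C : ℝ) (F : (Fin m → ℝ) → ℝ → S) : Prop :=
  (∀ η x x', dist (F x η) (F x' η) ≤ C * (2 : ℝ) ^ (-η) * dist x x') ∧ ∀ x, Lip1 C (fun η => F x η)

/-- `F` is constant away from the walls of the level of the height. -/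
structure Supp {m : ℕ} (p : S) (F : (Fin m → ℝ) → ℝ → S) : Prop where
  slice : ∀ (j : ℤ) (x : Fin m → ℝ), Far j (2 ^ j / 100) x → F x j = p
  slab : ∀ (j : ℤ) (x : Fin m → ℝ) (η : ℝ), (j : ℝ) ≤ η → η ≤ j + 1 → Far j (2 ^ j / 100) x →
    Far (j + 1) (2 ^ (j + 1) / 100) x → F x η = p

/-- uniformly Lipschitz paths to `p` -/
def PathProp (S : Type) [MetricSpace S] (p : S) : Prop :=
  ∃ C : ℝ, 0 ≤ C ∧ ∀ y, ∃ P : ℝ → S, Lip1 C P ∧ P 0 = y ∧ P 1 = p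

/-- uniformly Lipschitz null-homotopies of loops at `p` -/
def NulProp (S : Type) [MetricSpace S] (p : S) : Prop :=
  ∀ C : ℝ, ∃ C' : ℝ, 0 ≤ C' ∧ ∀ (l : ℝ → S), Lip1 C l → l 0 = p → l 1 = p →
    ∃ (K : ℝ → ℝ → S), (∀ t, Lip1 C' (fun h => K h t)) ∧ (∀ h, Lip1 C' (fun t => K h t)) ∧
      (∀ h, 0 ≤ h → h ≤ 1 → K h 0 = l h) ∧ (∀ h, K h 1 = p) ∧ ∀ t, K 0 t = p ∧ K 1 t = p

end

/-- The point with coordinates `(x, 2^η)`. -/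
noncomputable def hpt {m : ℕ} (x : Fin m → ℝ) (η : ℝ) : Hyp m :=
  ⟨WithLp.toLp 2 x, (2 : ℝ) ^ η, by positivity⟩

/-- Task Slice. -/
def TaskSlice : Prop := ∀ (S : Type) [MetricSpace S] (p : S) (m : ℕ), PathProp S p →
  ∀ C : ℝ, ∃ C' : ℝ, 0 ≤ C' ∧ ∀ f : (Fin m → ℝ) → S, LipN C f →
    ∃ g : ℝ → (Fin m → ℝ) → S, (∀ t, LipN C' (g t)) ∧ (∀ x, Lip1 C' (fun t => g t x)) ∧
      (∀ x, g 0 x = f x) ∧ ∀ x, Far 0 (1 / 100) x → g 1 x = p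

/-- Task Slab. -/
def TaskSlab : Prop := ∀ (S : Type) [MetricSpace S] (p : S) (m : ℕ), NulProp S p →
  ∀ C : ℝ, ∃ C' : ℝ, 0 ≤ C' ∧ ∀ F : (Fin m → ℝ) → ℝ → S, (∀ h, LipN C (fun x => F x h)) →
    (∀ x, Lip1 C (fun h => F x h)) → (∀ x, Far 0 (1 / 100) x → F x 0 = p) →
    (∀ x, Far 1 (1 / 50) x → F x 1 = p) →
      ∃ g : ℝ → (Fin m → ℝ) → ℝ → S, (∀ t h, LipN C' (fun x => g t x h)) ∧
        (∀ t x, Lip1 C' (fun h => g t x h)) ∧ (∀ x h, Lip1 C' (fun t => g t x h)) ∧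
        (∀ x h, 0 ≤ h → h ≤ 1 → g 0 x h = F x h) ∧ (∀ t x, g t x 0 = F x 0 ∧ g t x 1 = F x 1) ∧
        ∀ x h, 0 ≤ h → h ≤ 1 → Far 0 (1 / 100) x → Far 1 (1 / 50) x → g 1 x h = p

/-- Task StageS1. -/
def TaskStageS1 : Prop := TaskSlice → ∀ (S : Type) [MetricSpace S] (p : S) (m : ℕ),
  PathProp S p → ∀ C : ℝ, ∃ C' : ℝ, 0 ≤ C' ∧ ∀ F : (Fin m → ℝ) → ℝ → S, HL C F →
    ∃ H : ℝ → (Fin m → ℝ) → ℝ → S, (∀ t, HL C' (H t)) ∧ (∀ x η, Lip1 C' (fun t => H t x η)) ∧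
      (∀ x η, H 0 x η = F x η) ∧ ∀ (j : ℤ) x, Far j (2 ^ j / 100) x → H 1 x j = p

/-- Task StageS2. -/
def TaskStageS2 : Prop := TaskSlab → ∀ (S : Type) [MetricSpace S] (p : S) (m : ℕ),
  NulProp S p → ∀ C : ℝ, ∃ C' : ℝ, 0 ≤ C' ∧ ∀ F : (Fin m → ℝ) → ℝ → S, HL C F →
    (∀ (j : ℤ) x, Far j (2 ^ j / 100) x → F x j = p) →
    ∃ H : ℝ → (Fin m → ℝ) → ℝ → S, (∀ t, HL C' (H t)) ∧ (∀ x η, Lip1 C' (fun t => H t x η)) ∧
      (∀ x η, H 0 x η = F x η) ∧ Supp p (H 1)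

/-- Task Sweep. -/
def TaskSweep : Prop := ∀ (S : Type) [MetricSpace S] (p : S) (m : ℕ) (C : ℝ), 0 ≤ C →
  ∃ C' : ℝ, 0 ≤ C' ∧ ∀ F : (Fin m → ℝ) → ℝ → S, HL C F → Supp p F →
    ∃ K : ℝ → (Fin m → ℝ) → ℝ → S, (∀ L, HL C' (K L)) ∧ (∀ x η, Lip1 C' (fun L => K L x η)) ∧
      (∀ x η L, L ≤ η → K L x η = F x η) ∧
      (∀ X : ℝ, ∃ L₀ : ℝ, ∀ L, L₀ ≤ L → ∀ x η, (∀ i, |x i| ≤ X) → η ≤ X → K L x η = p) ∧
      ∀ x η, eVariationOn (fun L => K L x η) Set.univ ≤ ENNReal.ofReal C'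

/-- Task HLof. -/
def TaskHLof : Prop := ∀ (m : ℕ), ∃ C : ℝ, 0 ≤ C ∧ ∀ (S : Type) [MetricSpace S] (F : Hyp m → S),
  (∀ z w, dist (F z) (F w) ≤ hdist z w) → HL C (fun x η => F (hpt x η))

/-- Task HLto. -/
def TaskHLto : Prop := ∀ (m : ℕ) (S : Type) [MetricSpace S] (C Δ : ℝ), 0 ≤ C →
  (∀ a b : S, dist a b ≤ Δ) → ∃ C' : ℝ, 0 ≤ C' ∧ ∀ G : (Fin m → ℝ) → ℝ → S, HL C G →
    ∀ z w : Hyp m, dist (G (fun i => z.x i) (Real.logb 2 z.y)) (G (fun i => w.x i) (Real.logb 2 w.y))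
      ≤ C' * hdist z w

/-- Task BallBd. -/
def TaskBallBd : Prop := ∀ (m : ℕ) (R : ℝ), ∃ X : ℝ, ∀ z : Hyp m, hdist z (origin m) ≤ R →
  (∀ i, |z.x i| ≤ X) ∧ |Real.logb 2 z.y| ≤ X

/-- The main statement for simply connected targets. -/
def MainS : Prop := ∀ (m : ℕ) (S : Type) [MetricSpace S] [CompactSpace S] [SimplyConnectedSpace S],
  IsLNR S → ∀ p : S, ∃ C D : ℝ, 0 ≤ C ∧ 0 ≤ D ∧ ∀ R : ℝ, ∀ F : Hyp m → S,
    (∀ z w, dist (F z) (F w) ≤ hdist z w) → ∃ H : ℝ → Hyp m → S,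
      (∀ t z w, dist (H t z) (H t w) ≤ C * hdist z w) ∧
      (∀ z, hdist z (origin m) ≤ R → Continuous (fun t => H t z)) ∧
      (∀ z, hdist z (origin m) ≤ R →
        eVariationOn (fun t => H t z) Set.univ ≤ ENNReal.ofReal D) ∧
      (∀ z, hdist z (origin m) ≤ R → H 0 z = F z) ∧
      ∀ z, hdist z (origin m) ≤ R → H 1 z = p

/-- Task AssS: the assembly. -/
def TaskAssS : Prop := TaskPath → TaskNul → TaskSlice → TaskSlab → TaskStageS1 → TaskStageS2 →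
  TaskSweep → TaskHLof → TaskHLto → TaskBallBd → MainS

end Pool.Agent.H261R3.LN
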