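import Pool.Agent.H261R3.LN.FDefs
import Pool.Agent.H261R3.LN.SStmts
import Pool.Agent.H261R3.LN.Fin

set_option autoImplicit false

open scoped NNReal ENNReal

namespace Pool.Agent.H261R3.LN

open Pool.Agent.H261R3.LD (LipCurve distLip diamLip)
open Pool.Agent.H261R3.LH (Lip1 IsLNR)

/-- concatenation of two tracks -/
theorem track_var {S : Type} [MetricSpace S] (A B : ℝ → S) (hAB : A 1 = B 1) {D : ℝ≥0∞}
    (hA : eVariationOn A Set.univ ≤ D) (hB : eVariationOn B Set.univ ≤ D) :
    eVariationOn (fun t : unitInterval => (fun t : ℝ => if t ≤ 1 / 2 then A (2 * t)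
      else B (2 - 2 * t)) t) Set.univ ≤ D + D := by
  set φ : ℝ → S := fun t : ℝ => if t ≤ 1 / 2 then A (2 * t) else B (2 - 2 * t) with hφ
  have h1 : eVariationOn (φ ∘ fun t : unitInterval => (t : ℝ)) Set.univ ≤
      eVariationOn φ Set.univ :=
    eVariationOn.comp_le_of_monotoneOn φ _ (fun a _ b _ hab => hab) (fun _ _ => Set.mem_univ _)
  refine h1.trans ?_
  have h2 : (Set.univ : Set ℝ) = Set.Iic (1 / 2) ∪ Set.Ici (1 / 2) := Set.Iic_union_Ici.symm
  rw [h2, eVariationOn.union φ (x := 1 / 2) isGreatest_Iic isLeast_Ici]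
  refine add_le_add ?_ ?_
  · have e : Set.EqOn φ (A ∘ fun t => 2 * t) (Set.Iic (1 / 2)) := by
      intro t ht
      simp only [hφ, Function.comp]
      rw [if_pos (Set.mem_Iic.1 ht)]
    rw [eVariationOn.congr e]
    refine (eVariationOn.comp_le_of_monotoneOn A (s := Set.univ) (fun t => 2 * t) ?_
      (fun _ _ => Set.mem_univ _)).trans hA
    intro a _ b _ hab
    dsimp only
    linarith
  · have e : Set.EqOn φ (B ∘ fun t => 2 - 2 * t) (Set.Ici (1 / 2)) := by
      intro t ht
      simp only [hφ, Function.comp]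
      rcases eq_or_lt_of_le (Set.mem_Ici.1 ht) with h | h
      · rw [← h]
        norm_num
        exact hAB
      · rw [if_neg (not_le.2 h)]
    rw [eVariationOn.congr e]
    refine (eVariationOn.comp_le_of_antitoneOn B (s := Set.univ) (fun t => 2 - 2 * t) ?_
      (fun _ _ => Set.mem_univ _)).trans hB
    intro a _ b _ hab
    dsimp only
    linarith

/-- abstract upper bound -/
theorem diam_upperS {m : ℕ} {S : Type} [MetricSpace S] (hRet : TaskRetrN) (p : S) (C : ℝ)
    (D : ℝ≥0)
    (hH : ∀ R : ℝ, ∀ F : Hyp m → S, (∀ z w, dist (F z) (F w) ≤ hdist z w) →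
      ∃ H : ℝ → Hyp m → S, (∀ t z w, dist (H t z) (H t w) ≤ C * hdist z w) ∧
      (∀ z, hdist z (origin m) ≤ R → Continuous (fun t => H t z)) ∧
      (∀ z, hdist z (origin m) ≤ R → eVariationOn (fun t => H t z) Set.univ ≤ D) ∧
      (∀ z, hdist z (origin m) ≤ R → H 0 z = F z) ∧
      ∀ z, hdist z (origin m) ≤ R → H 1 z = p) (c : ℝ≥0) (hcC : C ≤ c) (R : ℝ) (hR : 0 < R) :
    hypDiam m S c R ≤ ((D + D : ℝ≥0) : ℝ≥0∞) := by
  obtain ⟨ρ, h1, h2, h3⟩ := hRet m R hR.le
  have key : ∀ f : Metric.closedBall (origin m) R → S, LipschitzWith 1 f →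
      ∃ H : ℝ → Metric.closedBall (origin m) R → S,
      (∀ t z w, dist (H t z) (H t w) ≤ C * dist z w) ∧ (∀ z, Continuous (fun t => H t z)) ∧
      (∀ z, eVariationOn (fun t => H t z) Set.univ ≤ D) ∧
      (∀ z, H 0 z = f z) ∧ ∀ z, H 1 z = p := by
    intro f hf
    obtain ⟨H, k1, k2, k3, k4, k5⟩ := hH R (fun z => f ⟨ρ z, h1 z⟩) (fun z w => by
      refine (hf.dist_le_mul _ _).trans ?_
      rw [NNReal.coe_one, one_mul]
      exact h3 z w)
    refine ⟨fun t z => H t z.1, fun t z w => k1 t z.1 w.1, fun z => k2 z.1 z.2,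
      fun z => k3 z.1 z.2, fun z => ?_, fun z => k5 z.1 z.2⟩
    change H 0 z.1 = f z
    rw [k4 z.1 z.2]
    congr 1
    exact Subtype.ext (h2 z.1 z.2)
  unfold hypDiam diamLip
  refine iSup_le fun f => iSup_le fun hf => iSup_le fun g => iSup_le fun hg => ?_
  obtain ⟨H, a1, a2, a3, a4, a5⟩ := key f hf
  obtain ⟨H', b1, b2, b3, b4, b5⟩ := key g hg
  let γ : LipCurve (Metric.closedBall (origin m) R) S c f g :=
    { F := fun t z => (fun t : ℝ => if t ≤ 1 / 2 then H (2 * t) z else H' (2 - 2 * t) z) t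
      lip := by
        intro t
        apply LipschitzWith.of_dist_le_mul
        intro z w
        have h5 : C * dist z w ≤ c * dist z w := mul_le_mul_of_nonneg_right hcC dist_nonneg
        refine le_trans ?_ h5
        dsimp only
        split_ifs
        · exact a1 _ z w
        · exact b1 _ z w
      cont := by
        intro z
        have h5 : Continuous (fun t : ℝ => if t ≤ 1 / 2 then H (2 * t) z else H' (2 - 2 * t) z) := by
          refine Continuous.if_le ((a2 z).comp (continuous_const.mul continuous_id))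
            ((b2 z).comp (continuous_const.sub (continuous_const.mul continuous_id)))
            continuous_id continuous_const ?_
          intro t ht
          have ht' : t = 1 / 2 := ht
          rw [ht']
          norm_num
          rw [a5, b5]
        exact h5.comp continuous_subtype_val
      start := by
        funext z
        simp [a4]
      finish := by
        funext z
        dsimp only
        rw [if_neg (by norm_num)]
        norm_num
        exact b4 z }
  refine (iInf_le _ γ).trans ?_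
  unfold LipCurve.length
  refine iSup_le fun z => ?_
  rw [ENNReal.coe_add]
  exact track_var (fun t => H t z) (fun t => H' t z) ((a5 z).trans (b5 z).symm) (a3 z) (b3 z)

/-- passing to a space covered by `E` -/
theorem cover_bounded (hM : MainS) (hL : TaskLift) (hCL : TaskCovLip) (hRet : TaskRetrN) (m : ℕ)
    (E S : Type) [MetricSpace E] [CompactSpace E] [SimplyConnectedSpace E] [MetricSpace S]
    (hE : IsLNR E) (π : E → S) (hπ : IsMetricCover π) : BoundedDiam m S := by
  obtain ⟨p⟩ : Nonempty E := inferInstance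
  obtain ⟨C, D, hC, hD, hH⟩ := hM m E hE p
  obtain ⟨C', hC', hlip⟩ := hCL E S π hπ
  have hnn : ∀ z w : Hyp m, 0 ≤ hdist z w := fun z w => (dist_nonneg : 0 ≤ dist z w)
  have hC0 : 0 ≤ C' := by linarith
  have hlw : LipschitzWith ⟨C', hC0⟩ π := LipschitzWith.of_dist_le_mul fun a b => hlip a b
  let DD : ℝ≥0 := ⟨D, hD⟩
  let CC : ℝ≥0 := ⟨C', hC0⟩
  let D' : ℝ≥0 := CC * DD
  refine ⟨⟨C' * C + 1, by positivity⟩, D' + D', ?_, fun c hc R hR => ?_⟩
  · rw [← NNReal.coe_le_coe]
    change (1 : ℝ) ≤ C' * C + 1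
    nlinarith
  · refine diam_upperS hRet (π p) (C' * C + 1) D' ?_ c ?_ R hR
    · intro R F hF
      obtain ⟨F', h1, h2⟩ := hL m E S π hπ F hF
      obtain ⟨H, k1, k2, k3, k4, k5⟩ := hH R F' h1
      refine ⟨fun t z => π (H t z), fun t z w => ?_, fun z hz => hlw.continuous.comp (k2 z hz),
        fun z hz => ?_, fun z hz => ?_, fun z hz => ?_⟩
      · have h5 := hlip (H t z) (H t w)
        have h6 := mul_le_mul_of_nonneg_left (k1 t z w) hC0
        have h7 := hnn z w
        nlinarith
      · have h5 := (hlw.lipschitzOnWith (s := Set.univ)).comp_eVariationOn_le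
          (g := fun t => H t z) (s := Set.univ) (fun _ _ => Set.mem_univ _)
        have h8 : eVariationOn (fun t => H t z) Set.univ ≤ (DD : ℝ≥0∞) :=
          (k3 z hz).trans (le_of_eq (ENNReal.ofReal_eq_coe_nnreal hD))
        have h9 : (CC : ℝ≥0∞) * eVariationOn (fun t => H t z) Set.univ ≤ (CC : ℝ≥0∞) * (DD : ℝ≥0∞) := by
          gcongr
        have h10 : ((D' : ℝ≥0) : ℝ≥0∞) = (CC : ℝ≥0∞) * (DD : ℝ≥0∞) := ENNReal.coe_mul _ _
        rw [h10]
        exact h5.trans h9
      · change π (H 0 z) = F z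
        rw [k4 z hz, h2]
      · change π (H 1 z) = π p
        rw [k5 z hz]
    · have : (⟨C' * C + 1, by positivity⟩ : ℝ≥0) ≤ c := hc
      exact_mod_cast this

/-- bounded diameters when the fundamental group is finite -/
theorem bounded_of_finite (hM : MainS) (hL : TaskLift) (hCL : TaskCovLip) (hRet : TaskRetrN)
    (h0 : TaskU0) (h1 : TaskU1) (h2 : TaskU2) (h3 : TaskU3) (h4 : TaskU4) (m : ℕ)
    (S : Type) [MetricSpace S] [CompactSpace S] [PathConnectedSpace S] (hS : IsLNR S) (p : S)
    (hp : Finite (Path.Homotopic.Quotient p p)) : BoundedDiam m S := by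
  obtain ⟨ε, hε, -, ⟨L⟩⟩ := h0 S hS
  let _ := ucMetric L hε p
  have : CompactSpace (UC p) := h2 S hS ε hε L p hp
  have : SimplyConnectedSpace (UC p) := h3 S hS ε hε L p
  exact cover_bounded hM hL hCL hRet m (UC p) S (h4 S hS ε hε L p hp) (ucProj p)
    (h1 S hS ε hε L p)

/-- linear growth when the fundamental group is infinite -/
theorem linear_of_infinite (hLB : LowerBd) (hRay : TaskHypRay) (S : Type) [MetricSpace S]
    [CompactSpace S] (hS : IsLNR S) (p : S) (hp : Infinite (Path.Homotopic.Quotient p p)) :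
    ∃ δ A : ℝ, 0 < δ ∧ ∀ (m : ℕ) (c : ℝ≥0), 1 ≤ c → ∀ R : ℝ, 0 < R →
      ENNReal.ofReal (δ * R - A) ≤ hypDiam m S c R := by
  obtain ⟨δ, A, hδ, h⟩ := hLB S hS p hp
  refine ⟨δ, A, hδ, fun m c hc R hR => ?_⟩
  obtain ⟨ρ, hρ0, hρ⟩ := hRay m R hR
  have hd : ∀ s, hdist (ρ s) (origin m) = R * s := by
    intro s
    rw [← hρ0, hρ]
    simp [abs_of_nonneg s.2.1]
  refine h (Metric.closedBall (origin m) R) ⟨origin m, Metric.mem_closedBall_self hR.le⟩ R hR
    (fun s => ⟨ρ s, ?_⟩) (fun x => x.2) (fun s t => (hρ s t).le) (Subtype.ext hρ0) hd c hc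
  change hdist (ρ s) (origin m) ≤ R
  rw [hd s]
  have := s.2.2
  nlinarith

end Pool.Agent.H261R3.LN
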