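import Pool.Agent.H261R3.LN.UStmts
import Pool.Agent.H475R3.LN.TriN

/-! Definitions for MP_e25190_gt: hyperbolic space as a metric space, the diameters. -/

set_option autoImplicit false

open scoped NNReal ENNReal

namespace Pool.Agent.H261R3.LN

open Pool.Agent.H261R3.LD (LipCurve distLip diamLip)
open Pool.Agent.H261R3.LH (Lip1 IsLNR)

/-- Hyperbolic `(m+1)`-space: the upper half space with the hyperbolic distance `hdist`. -/
noncomputable instance (m : ℕ) : MetricSpace (Hyp m) where
  dist := hdist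
  dist_self z := (Pool.Agent.H475R3.LN.taskTriN m z z z).2.2.1
  dist_comm z w := (Pool.Agent.H475R3.LN.taskTriN m z w z).2.2.2.1
  dist_triangle z w v := (Pool.Agent.H475R3.LN.taskTriN m z w v).1
  eq_of_dist_eq_zero {z w} h := (Pool.Agent.H475R3.LN.taskTriN m z w z).2.1 h

/-- The diameter `D(R) = diam_c (Lip_1 (B_H^n(R) → S))` of the space of 1-Lipschitz maps of the
closed hyperbolic ball of radius `R` and dimension `n = m + 1` to `S`, the connecting curves
passing through `c`-Lipschitz maps. -/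
noncomputable def hypDiam (m : ℕ) (S : Type) [MetricSpace S] (c : ℝ≥0) (R : ℝ) : ℝ≥0∞ :=
  diamLip (Metric.closedBall (origin m) R) S c 1

/-- `D(R)` is bounded for all large `c` in dimension `m + 1`. -/
def BoundedDiam (m : ℕ) (S : Type) [MetricSpace S] : Prop :=
  ∃ c₀ D : ℝ≥0, 1 ≤ c₀ ∧ ∀ c : ℝ≥0, c₀ ≤ c → ∀ R : ℝ, 0 < R → hypDiam m S c R ≤ D

end Pool.Agent.H261R3.LN
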