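import Pool.Agent.H261R3.LN.LStmts

/-! Task LBSplit of project LM (helper779). -/

set_option autoImplicit false

open scoped NNReal ENNReal unitInterval

namespace Pool.Agent.H261R3.LN

theorem taskLBSplit : TaskLBSplit := by
  intro S _ x y γ C hγ r hr0 hr1
  have hb : ∀ s : I, (r : ℝ) + (1 - r) * s ∈ I := by
    intro s
    have h0 := s.2.1
    have h1 := s.2.2
    constructor <;> nlinarith
  have hφm : ∀ t : I, (r : ℝ) * min 1 (2 * (t : ℝ)) + (1 - r) * max 0 (2 * (t : ℝ) - 1) ∈ I := by
    intro t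
    have h0 := t.2.1
    have h1 := t.2.2
    have a0 : 0 ≤ min 1 (2 * (t : ℝ)) := le_min zero_le_one (by linarith)
    have a1 : min 1 (2 * (t : ℝ)) ≤ 1 := min_le_left _ _
    have b0 : 0 ≤ max 0 (2 * (t : ℝ) - 1) := le_max_left _ _
    have b1 : max 0 (2 * (t : ℝ) - 1) ≤ 1 := max_le zero_le_one (by linarith)
    constructor <;> nlinarith
  let α : Path x (γ r) :=
    { toFun := fun s => γ (r * s)
      continuous_toFun := by fun_prop
      source' := by simp
      target' := by simp }
  let β : Path (γ r) y :=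
    { toFun := fun s => γ ⟨(r : ℝ) + (1 - r) * s, hb s⟩
      continuous_toFun := by fun_prop
      source' := by simp
      target' := by
        have : (⟨(r : ℝ) + (1 - r) * ((1 : I) : ℝ), hb 1⟩ : I) = 1 := by
          ext
          simp
        rw [this]
        exact γ.target }
  let φ : I → I := fun t =>
    ⟨(r : ℝ) * min 1 (2 * (t : ℝ)) + (1 - r) * max 0 (2 * (t : ℝ) - 1), hφm t⟩
  have hφ : Continuous φ := by
    apply Continuous.subtype_mk
    fun_prop
  have h0 : φ 0 = 0 := by
    ext
    simp [φ]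
  have h1 : φ 1 = 1 := by
    ext
    simp only [φ, Set.Icc.coe_one]
    norm_num
  refine ⟨α, β, ?_, fun s => rfl, ?_⟩
  · have he : α.trans β = γ.reparam φ hφ h0 h1 := by
      ext t
      rw [Path.trans_apply]
      show _ = γ (φ t)
      split_ifs with h
      · show γ (r * ⟨2 * (t : ℝ), _⟩) = γ (φ t)
        congr 1
        ext
        simp only [φ, Set.Icc.coe_mul]
        rw [min_eq_right (by linarith), max_eq_left (by linarith)]
        ring
      · show γ ⟨(r : ℝ) + (1 - r) * (2 * (t : ℝ) - 1), _⟩ = γ (φ t)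
        congr 1
        ext
        simp only [φ]
        rw [min_eq_left (by linarith), max_eq_right (by linarith)]
        ring
    rw [he]
    exact ⟨Path.Homotopy.reparam γ φ hφ h0 h1⟩
  · intro s t
    have h := hγ ⟨(r : ℝ) + (1 - r) * s, hb s⟩ ⟨(r : ℝ) + (1 - r) * t, hb t⟩
    refine h.trans (le_of_eq ?_)
    have e : ((r : ℝ) + (1 - r) * s) - ((r : ℝ) + (1 - r) * t) = (1 - r) * ((s : ℝ) - t) := by ring
    show C * |((r : ℝ) + (1 - r) * s) - ((r : ℝ) + (1 - r) * t)| = _
    rw [e, abs_mul, abs_of_pos (by linarith : (0 : ℝ) < 1 - r)]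
    ring

end Pool.Agent.H261R3.LN
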