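import Pool.Agent.H261R3.LN.LStmts

/-! Project LM, part U (MP_e25190_gt): the universal covering of a compact Lipschitz neighbourhood
retract with finite fundamental group. Definitions and tasks. -/

set_option autoImplicit false

open scoped NNReal ENNReal unitInterval

namespace Pool.Agent.H261R3.LN

open Pool.Agent.H261R3.LH (Lip1 IsLNR clip clip_nonneg)

/-- Classes of short paths. -/
structure LocSeg (S : Type) [MetricSpace S] (ε : ℝ) where
  /-- the class of short paths from `y` to `y'` -/
  seg : ∀ y y' : S, Path.Homotopic.Quotient y y'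
  refl : ∀ y, seg y y = Path.Homotopic.Quotient.refl y
  trans : ∀ y y' y'', dist y y' < ε → dist y' y'' < ε → dist y y'' < ε →
    (seg y y').trans (seg y' y'') = seg y y''
  small : ∀ (y y' : S) (γ : Path y y'), (∀ t, dist y (γ t) < ε) →
    Path.Homotopic.Quotient.mk γ = seg y y'

/-- The universal covering as a set: points with a class of paths from `p`. -/
def UC {S : Type} [MetricSpace S] (p : S) : Type := Σ y : S, Path.Homotopic.Quotient p y

/-- The covering projection. -/
def ucProj {S : Type} [MetricSpace S] (p : S) : UC p → S := fun a => a.1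

theorem q_trans_assoc {S : Type} [MetricSpace S] {a b c d : S} (P : Path.Homotopic.Quotient a b)
    (Q : Path.Homotopic.Quotient b c) (R : Path.Homotopic.Quotient c d) :
    (P.trans Q).trans R = P.trans (Q.trans R) := by
  induction P using Path.Homotopic.Quotient.ind with
  | mk P =>
    induction Q using Path.Homotopic.Quotient.ind with
    | mk Q =>
      induction R using Path.Homotopic.Quotient.ind with
      | mk R =>
        rw [← Path.Homotopic.Quotient.mk_trans, ← Path.Homotopic.Quotient.mk_trans,
          ← Path.Homotopic.Quotient.mk_trans, ← Path.Homotopic.Quotient.mk_trans]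
        exact Path.Homotopic.Quotient.eq.2 ⟨Path.Homotopy.transAssoc P Q R⟩

theorem q_trans_refl {S : Type} [MetricSpace S] {a b : S} (P : Path.Homotopic.Quotient a b) :
    P.trans (Path.Homotopic.Quotient.refl b) = P := by
  induction P using Path.Homotopic.Quotient.ind with
  | mk P =>
    rw [← Path.Homotopic.Quotient.mk_refl, ← Path.Homotopic.Quotient.mk_trans]
    exact Path.Homotopic.Quotient.eq.2 ⟨Path.Homotopy.transRefl P⟩

open Classical in
/-- The metric of the universal covering: the distance of the base points for nearby points on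
the same sheet, `ε/4` otherwise. -/
noncomputable def ucDist {S : Type} [MetricSpace S] {ε : ℝ} (L : LocSeg S ε) {p : S}
    (a b : UC p) : ℝ :=
  if dist a.1 b.1 < ε / 4 ∧ a.2.trans (L.seg a.1 b.1) = b.2 then dist a.1 b.1 else ε / 4

/-- The metric space structure of the universal covering. -/
@[reducible] noncomputable def ucMetric {S : Type} [MetricSpace S] {ε : ℝ} (L : LocSeg S ε)
    (hε : 0 < ε) (p : S) : MetricSpace (UC p) where
  dist := ucDist L
  dist_self a := by
    unfold ucDist
    rw [if_pos, dist_self]
    refine ⟨by rw [dist_self]; positivity, ?_⟩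
    rw [L.refl, q_trans_refl]
  dist_comm a b := by
    unfold ucDist
    have key : ∀ a b : UC p, dist a.1 b.1 < ε / 4 ∧ a.2.trans (L.seg a.1 b.1) = b.2 →
        dist b.1 a.1 < ε / 4 ∧ b.2.trans (L.seg b.1 a.1) = a.2 := by
      rintro a b ⟨h1, h2⟩
      have h3 : dist b.1 a.1 < ε / 4 := by rw [dist_comm]; exact h1
      refine ⟨h3, ?_⟩
      rw [← h2, q_trans_assoc, L.trans _ _ _ (by linarith) (by linarith)
        (by rw [dist_self]; exact hε), L.refl, q_trans_refl]
    by_cases h : dist a.1 b.1 < ε / 4 ∧ a.2.trans (L.seg a.1 b.1) = b.2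
    · rw [if_pos h, if_pos (key a b h), dist_comm]
    · rw [if_neg h, if_neg (fun h' => h (key b a h'))]
  dist_triangle a b c := by
    have hle : ∀ a b : UC p, ucDist L a b ≤ ε / 4 := by
      intro a b
      unfold ucDist
      split_ifs with h
      · exact h.1.le
      · exact le_rfl
    have hnn : ∀ a b : UC p, 0 ≤ ucDist L a b := by
      intro a b
      unfold ucDist
      split_ifs
      · exact dist_nonneg
      · positivity
    by_cases h1 : dist a.1 b.1 < ε / 4 ∧ a.2.trans (L.seg a.1 b.1) = b.2
    · by_cases h2 : dist b.1 c.1 < ε / 4 ∧ b.2.trans (L.seg b.1 c.1) = c.2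
      · have h3 := dist_triangle a.1 b.1 c.1
        have h4 : a.2.trans (L.seg a.1 c.1) = c.2 := by
          rw [← h2.2, ← h1.2, q_trans_assoc, L.trans _ _ _ (by linarith [h1.1]) (by linarith [h2.1])
            (by linarith [h1.1, h2.1])]
        unfold ucDist
        rw [if_pos h1, if_pos h2]
        split_ifs with h5
        · exact h3
        · have h6 : ¬ dist a.1 c.1 < ε / 4 := fun h => h5 ⟨h, h4⟩
          linarith
      · have h3 : ucDist L b c = ε / 4 := by unfold ucDist; rw [if_neg h2]
        have h4 := hle a c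
        have h5 := hnn a b
        linarith
    · have h3 : ucDist L a b = ε / 4 := by unfold ucDist; rw [if_neg h1]
      have h4 := hle a c
      have h5 := hnn b c
      linarith
  eq_of_dist_eq_zero {a b} h := by
    unfold ucDist at h
    split_ifs at h with h1
    · obtain ⟨y, c⟩ := a
      obtain ⟨y', c'⟩ := b
      have h2 : y = y' := dist_eq_zero.1 h
      subst h2
      have h3 := h1.2
      dsimp only at h3
      rw [L.refl, q_trans_refl] at h3
      rw [h3]
    · exfalso
      linarith

/-- Task U0: short paths in a Lipschitz neighbourhood retract. -/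
def TaskU0 : Prop := ∀ (S : Type) [MetricSpace S] [CompactSpace S] [PathConnectedSpace S],
  IsLNR S → ∃ ε : ℝ, 0 < ε ∧ (∃ δ : ℝ, 0 < δ ∧ ∀ y y' : S, dist y y' < δ →
    ∃ γ : Path y y', ∀ t, dist y (γ t) < ε) ∧ Nonempty (LocSeg S ε)

/-- Task U1: the projection is a locally isometric covering. -/
def TaskU1 : Prop := ∀ (S : Type) [MetricSpace S] [CompactSpace S] [PathConnectedSpace S],
  IsLNR S → ∀ (ε : ℝ) (hε : 0 < ε) (L : LocSeg S ε) (p : S),
    letI := ucMetric L hε p
    IsMetricCover (ucProj p)

/-- Task U2: compactness. -/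
def TaskU2 : Prop := ∀ (S : Type) [MetricSpace S] [CompactSpace S] [PathConnectedSpace S],
  IsLNR S → ∀ (ε : ℝ) (hε : 0 < ε) (L : LocSeg S ε) (p : S),
    Finite (Path.Homotopic.Quotient p p) →
    letI := ucMetric L hε p
    CompactSpace (UC p)

/-- Task U3: the universal covering is simply connected. -/
def TaskU3 : Prop := ∀ (S : Type) [MetricSpace S] [CompactSpace S] [PathConnectedSpace S],
  IsLNR S → ∀ (ε : ℝ) (hε : 0 < ε) (L : LocSeg S ε) (p : S),
    letI := ucMetric L hε p
    SimplyConnectedSpace (UC p)

/-- Task U4: the universal covering is a Lipschitz neighbourhood retract. -/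
def TaskU4 : Prop := ∀ (S : Type) [MetricSpace S] [CompactSpace S] [PathConnectedSpace S],
  IsLNR S → ∀ (ε : ℝ) (hε : 0 < ε) (L : LocSeg S ε) (p : S),
    Finite (Path.Homotopic.Quotient p p) →
    letI := ucMetric L hε p
    IsLNR (UC p)

/-- Task U5: the homotopy groups in degrees 0 and 1 of a simply connected space. -/
def TaskU5 : Prop := ∀ (E : Type) [MetricSpace E] [SimplyConnectedSpace E] (p : E),
  ∀ q ≤ 1, Subsingleton (HomotopyGroup (Fin q) E p)

/-- Task Line1: dimension one: `Hyp 0` is a line. -/
def TaskLine1 : Prop := ∀ (S : Type) [MetricSpace S] (p : S), Kill S p 1 0 →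
  ∃ C : ℝ, 0 ≤ C ∧ ∀ F : Hyp 0 → S, (∀ z w, dist (F z) (F w) ≤ hdist z w) →
      ∃ H : ℝ → Hyp 0 → S, (∀ t z w, dist (H t z) (H t w) ≤ C * hdist z w) ∧
        (∀ z, Lip1 C (fun t => H t z)) ∧ (∀ z, H 0 z = F z) ∧ ∀ z, H 1 z = p

end Pool.Agent.H261R3.LN
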