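import Pool.Agent.H261R3.LN.Dich
import Pool.Agent.H757.LN.RetrN
import Pool.Agent.H41R3.LMCovLip
import Pool.Agent.H929R3.LN.LBFin
import Pool.Agent.H337R3.LN.LBVar
import Pool.Agent.H700R3.LN.LBRep
import Pool.Agent.H151.LN.LBConcat
import Pool.Agent.H261R3.LN.LBSplit
import Pool.Agent.H023R3.LM.LBSquare
import Pool.Agent.H948R3.LM_LBFinal
import Pool.Agent.H191R3.LN.HypRay
import Pool.Agent.H878.LN.Lift
import Pool.Agent.H859R3.LN.U0
import Pool.Agent.H125R3.LN.U1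
import Pool.Agent.H683R3.LN.U2
import Pool.Agent.H474R3.LN.U3
import Pool.Agent.H825R3.LN.U4

set_option autoImplicit false

open scoped NNReal ENNReal

namespace Pool.Agent.H261R3.LN

open Pool.Agent.H261R3.LH (Lip1 IsLNR)

theorem lowerBd : LowerBd :=
  Pool.Agent.H948R3.LM.taskLBFinal taskLBFin Pool.Agent.H337R3.LN.taskLBVar
    Pool.Agent.H700R3.LN.taskLBRep taskLBConcat taskLBSplit Pool.Agent.H023R3.LM.taskLBSquare

theorem linear_all (S : Type) [MetricSpace S]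
    [CompactSpace S] (hS : IsLNR S) (p : S) (hp : Infinite (Path.Homotopic.Quotient p p)) :
    ∃ δ A : ℝ, 0 < δ ∧ ∀ (m : ℕ) (c : ℝ≥0), 1 ≤ c → ∀ R : ℝ, 0 < R →
      ENNReal.ofReal (δ * R - A) ≤ hypDiam m S c R :=
  linear_of_infinite lowerBd taskHypRay S hS p hp

theorem bounded_all (hM : MainS) (m : ℕ)
    (S : Type) [MetricSpace S] [CompactSpace S] [PathConnectedSpace S] (hS : IsLNR S) (p : S)
    (hp : Finite (Path.Homotopic.Quotient p p)) : BoundedDiam m S :=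
  bounded_of_finite hM Pool.Agent.H878.LN.taskLift Pool.Agent.H41R3.LMCovLip.taskCovLip taskRetrN
    Pool.Agent.H859R3.LN.taskU0 Pool.Agent.H125R3.LN.taskU1 Pool.Agent.H683R3.LN.taskU2
    (U3H474.taskU3 Pool.Agent.H125R3.LN.taskU1)
    (Pool.Agent.H825R3.LN.taskU4 Pool.Agent.H683R3.LN.taskU2) m S hS p hp

end Pool.Agent.H261R3.LN
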