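import Pool.Agent.H261R3.LN.Stmts

set_option autoImplicit false

open scoped NNReal

namespace Pool.Agent.H261R3.LN

open Pool.Agent.H261R3.LH (Lip1 IsLNR clip clip_nonneg)

/-- The main statement: on hyperbolic `(m+2)`-space, all 1-Lipschitz maps to an `(m+1)`-connected
compact Lipschitz neighbourhood retract are homotopic to a constant through `C`-Lipschitz maps,
with `C`-Lipschitz tracks. -/
def MainN : Prop := ∀ (m : ℕ) (S : Type) [MetricSpace S] [CompactSpace S],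
  IsLNR S → ∀ p : S, (∀ q ≤ m + 1, Subsingleton (HomotopyGroup (Fin q) S p)) →
    ∃ C : ℝ, 0 ≤ C ∧ ∀ F : Hyp (m + 1) → S, (∀ z w, dist (F z) (F w) ≤ hdist z w) →
      ∃ H : ℝ → Hyp (m + 1) → S, (∀ t z w, dist (H t z) (H t w) ≤ C * hdist z w) ∧
        (∀ z, Lip1 C (fun t => H t z)) ∧ (∀ z, H 0 z = F z) ∧ ∀ z, H 1 z = p

theorem asmN_coord {m : ℕ} (z : Hyp m) : 0 ≤ z.y / 2 ^ (Int.log 2 z.y) - 1 ∧
    z.y / 2 ^ (Int.log 2 z.y) - 1 ≤ 1 := by
  have h0 : (0 : ℝ) < 2 ^ (Int.log 2 z.y) := by positivity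
  have h1 : (2 : ℝ) ^ (Int.log 2 z.y) ≤ z.y := by
    have := Int.zpow_log_le_self (b := 2) (r := z.y) one_lt_two z.pos
    exact_mod_cast this
  have h2 : z.y < (2 : ℝ) ^ (Int.log 2 z.y + 1) := by
    have := Int.lt_zpow_succ_log_self (R := ℝ) (b := 2) one_lt_two z.y
    exact_mod_cast this
  rw [zpow_add₀ two_ne_zero, zpow_one] at h2
  constructor
  · rw [sub_nonneg, le_div_iff₀ h0, one_mul]; exact h1
  · rw [sub_le_iff_le_add, div_le_iff₀ h0]; linarith

theorem asmN_congr {m : ℕ} {S : Type} {G G' : ℤ → (Fin m → ℤ) → (Fin m → ℝ) → ℝ → S}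
    (h : ∀ j k s h, InCube s → 0 ≤ h → h ≤ 1 → G j k s h = G' j k s h) (z : Hyp m) :
    asmN G z = asmN G' z := by
  unfold asmN
  exact h _ _ _ _ (fun i => ⟨Int.fract_nonneg _, (Int.fract_lt_one _).le⟩) (asmN_coord z).1
    (asmN_coord z).2

theorem kill_all (hN1 : TaskNulOneN) (hN : TaskNulUnifN) (hK : TaskKillStep) (S : Type)
    [MetricSpace S] [CompactSpace S] (hS : IsLNR S) (p : S) (N : ℕ)
    (hc : ∀ q ≤ N, Subsingleton (HomotopyGroup (Fin q) S p)) :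
    ∀ m q, m + q ≤ N → Kill S p m q := by
  intro m
  induction m with
  | zero => intro q hq; exact hN hN1 S hS q p (hc q (by omega))
  | succ m ih => intro q hq; exact hK S p m q (ih q (by omega)) (ih (q + 1) (by omega))

theorem wall_all (hW : TaskWallStep) (hW0 : TaskWall0) (S : Type) [MetricSpace S] (p : S) (N : ℕ)
    (hc : ∀ m q, m + q ≤ N → Kill S p m q) : ∀ m q, m + q ≤ N + 1 → KillW S p m q := by
  intro m
  induction m with
  | zero => intro q _; exact hW0 S p q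
  | succ m ih => intro q hq; exact hW S p m q (hc m q (by omega)) (ih (q + 1) (by omega))

theorem mainN_of (hA : TaskAsmN) (hC : TaskCellN) (hN1 : TaskNulOneN) (hN : TaskNulUnifN)
    (hK : TaskKillStep) (hW : TaskWallStep) (hW0 : TaskWall0) (h1 : TaskStage1N)
    (h2 : TaskStage2N) (h3 : TaskStage3N) (hT : TaskTransN) : MainN := by
  intro m S _ _ hS p hc
  have hk := kill_all hN1 hN hK S hS p (m + 1) hc
  have hw := wall_all hW hW0 S p (m + 1) hk
  obtain ⟨C0, hC0, h0⟩ := hC (m + 1)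
  obtain ⟨C1, hC1, h1⟩ := h1 S p (m + 1) (hk (m + 1) 0 (by omega)) C0
  obtain ⟨C2, hC2, h2⟩ := h2 S p (m + 1) (hw (m + 1) 1 (by omega)) C1
  obtain ⟨C3, hC3, h3⟩ := h3 S p m C2 hC2
  let C4 : ℝ := 2 * (2 * C1 + 2 * C2) + 2 * C3
  have hC4 : 0 ≤ C4 := by positivity
  have hb : ∀ a b : S, dist a b ≤ Metric.diam (Set.univ : Set S) := fun a b =>
    Metric.dist_le_diam_of_mem isCompact_univ.isBounded (Set.mem_univ _) (Set.mem_univ _)
  obtain ⟨C5, h5⟩ := hA (m + 1) S C4 _ hC4 hb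
  refine ⟨max C4 (max C5 0), hC4.trans (le_max_left _ _), fun F hF => ?_⟩
  obtain ⟨g0, g0'⟩ := h0 S F hF
  obtain ⟨G1, r1, g1, e1⟩ := h1 _ g0
  obtain ⟨G2, r2, g2, e2, e2'⟩ := h2 G1 g1 e1
  have r3 := h3 G2 g2 e2 e2'
  have r4 := hT S (m + 1) _ _ (by positivity) hC3 _ _ _ (hT S (m + 1) _ _ hC1 hC2 _ _ _ r1 r2) r3
  obtain ⟨H, k1, k2, k3, k4⟩ := r4
  have hnn : ∀ z w : Hyp (m + 1), 0 ≤ hdist z w := by
    intro z w
    unfold hdist
    apply Real.arcosh_nonneg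
    have := z.pos
    have := w.pos
    have : 0 ≤ (‖z.x - w.x‖ ^ 2 + (z.y - w.y) ^ 2) / (2 * z.y * w.y) := by positivity
    linarith
  refine ⟨fun t z => asmN (H t) z, fun t z w => ?_, fun z x y => ?_, fun z => ?_, fun z => ?_⟩
  · refine (h5 (H t) (k1 t) z w).trans ?_
    exact mul_le_mul_of_nonneg_right ((le_max_left _ _).trans (le_max_right _ _)) (hnn z w)
  · refine (k2 _ _ _ _ x y).trans ?_
    exact mul_le_mul_of_nonneg_right (le_max_left _ _) (abs_nonneg _)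
  · exact (asmN_congr k3 z).trans (g0' z)
  · exact (asmN_congr k4 z).trans rfl

end Pool.Agent.H261R3.LN
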