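import Pool.Agent.H261R3.LN.Fin
import Pool.Agent.H475R3.LN.TriN
import Pool.Agent.H757.LN.RetrN
import Pool.Agent.H398R3.LN.AsmN
import Pool.Agent.H768R3.LN.CellN
import Pool.Agent.H275R3.LN.NulOneN
import Pool.Agent.H497R3.NulUnifN
import Pool.Agent.helper128R3.LN.KillStep
import Pool.Agent.H385R3.LN.WallStep
import Pool.Agent.H482.LN.Wall0
import Pool.Agent.H531R3.LN.Stage1N
import Pool.Agent.H360R3.LN.Stage2N
import Pool.Agent.H676R4.LNStage3
import Pool.Agent.H756R3.LN.Trans
import Pool.Agent.H41R3.LMCovLip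

set_option autoImplicit false

open scoped NNReal ENNReal

namespace Pool.Agent.H261R3.LN

open Pool.Agent.H261R3.LD (LipCurve distLip diamLip)
open Pool.Agent.H261R3.LH (Lip1 IsLNR)

theorem mainN : MainN :=
  mainN_of Pool.Agent.H398R3.LN.taskAsmN CellN768.taskCellN Pool.Agent.H275R3.LN.taskNulOneN
    taskNulUnifN taskKillStep Pool.Agent.H385R3.LN.taskWallStep Pool.Agent.H482.LN.taskWall0
    Pool.Agent.H531R3.LN.taskStage1N Pool.Agent.H360R3.LN.taskStage2N
    Pool.Agent.H676R4.LN3.taskStage3N taskTransN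

end Pool.Agent.H261R3.LN
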