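import Pool.Agent.H261R3.LN.SPre
import Pool.Agent.H946R3.LN.Sweep

set_option autoImplicit false

namespace Pool.Agent.H261R3.LN

theorem mainS : MainS := mainS_of_sweep Pool.Agent.H946R3.LN.taskSweep

end Pool.Agent.H261R3.LN
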