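import Pool.Agent.H261R3.LN.SStmts
import Pool.Agent.H78R3.LN.Slice
import Pool.Agent.H689R3.Slab
import Pool.Agent.H808R3.LN.StageS1
import Pool.Agent.H474R3.LN.StageS2
import Pool.Agent.H750R3.LN.HLof
import Pool.Agent.H344R3.LN.HLto
import Pool.Agent.H119R3.LN.BallBd
import Pool.Agent.H554R3.LN.AssS
import Pool.Agent.H853R3.LH.Path
import Pool.Agent.H94R3.LH.NulUnif
import Pool.Agent.H275R3.LH.NulOne

set_option autoImplicit false

namespace Pool.Agent.H261R3.LN

theorem mainS_of_sweep (h : TaskSweep) : MainS :=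
  Pool.Agent.H554R3.LS.taskAssS Pool.Agent.H853R3.LH.Path.taskPath
    (Pool.Agent.H261R3.LH.taskNulUnif Pool.Agent.H275R3.LH.taskNulOne)
    Pool.Agent.H78R3.LN.taskSlice Pool.Agent.H689R3.Slab.taskSlab
    Pool.Agent.H808R3.LN.taskStageS1 Pool.Agent.H474R3.LN.taskStageS2 h
    HLof750.taskHLof Pool.Agent.H344R3.LN.taskHLto Pool.Agent.H119R3.LN.taskBallBd

end Pool.Agent.H261R3.LN
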