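import Pool.Agent.H261R3.LH.Stmts

/-! Project LN (MP_e25190_gt): maps from hyperbolic `n`-space (`n = m + 1 ≥ 2`) to `(n-1)`-connected
compact Lipschitz neighbourhood retracts are boundedly null-homotopic. Definitions and tasks. -/

set_option autoImplicit false

open scoped NNReal

namespace Pool.Agent.H261R3.LN

open Pool.Agent.H261R3.LH (Lip1 IsLNR clip clip_nonneg)

/-- A point of the boundary hyperplanes of the unit cube. -/
def Bd {d : ℕ} (u : Fin d → ℝ) : Prop := ∃ i, u i = 0 ∨ u i = 1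

/-- A point of the unit cube. -/
def InCube {d : ℕ} (u : Fin d → ℝ) : Prop := ∀ i, 0 ≤ u i ∧ u i ≤ 1

/-- Points of the upper half space model of hyperbolic `(m+1)`-space. -/
structure Hyp (m : ℕ) where
  /-- horizontal coordinates -/
  x : EuclideanSpace ℝ (Fin m)
  /-- height -/
  y : ℝ
  pos : 0 < y

/-- The hyperbolic distance (curvature -1). -/
noncomputable def hdist {m : ℕ} (z w : Hyp m) : ℝ :=
  Real.arcosh (1 + (‖z.x - w.x‖ ^ 2 + (z.y - w.y) ^ 2) / (2 * z.y * w.y))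

/-- The base point `(0, 1)`. -/
noncomputable def origin (m : ℕ) : Hyp m := ⟨0, 1, one_pos⟩

section
variable {S : Type} [MetricSpace S]

/-- `C`-Lipschitz functions of `d` real variables (sup norm). -/
def LipN {d : ℕ} (C : ℝ) (f : (Fin d → ℝ) → S) : Prop := ∀ x y, dist (f x) (f y) ≤ C * dist x y

/-- A homotopy `g` of `f`, Lipschitz in all variables, constant on the boundary in `u`. -/
structure Hmt {m q : ℕ} (C : ℝ) (p : S) (f : (Fin m → ℝ) → (Fin q → ℝ) → S)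
    (g : ℝ → (Fin m → ℝ) → (Fin q → ℝ) → S) : Prop where
  lx : ∀ t u, LipN C (fun x => g t x u)
  lu : ∀ t x, LipN C (fun u => g t x u)
  lt : ∀ x u, Lip1 C (fun t => g t x u)
  bd : ∀ t x u, Bd u → g t x u = p
  start : ∀ x u, InCube u → g 0 x u = f x u

/-- Every Lipschitz map `ℝ^m × (I^q, ∂I^q) → (S, p)` is null-homotopic, uniformly. -/
def Kill (S : Type) [MetricSpace S] (p : S) (m q : ℕ) : Prop :=
  ∀ C : ℝ, ∃ C' : ℝ, 0 ≤ C' ∧ ∀ f : (Fin m → ℝ) → (Fin q → ℝ) → S,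
    (∀ u, LipN C (fun x => f x u)) → (∀ x, LipN C (fun u => f x u)) →
    (∀ x u, Bd u → f x u = p) →
      ∃ g : ℝ → (Fin m → ℝ) → (Fin q → ℝ) → S, Hmt C' p f g ∧ ∀ x u, g 1 x u = p

/-- Every Lipschitz map `ℝ^m × (I^q, ∂I^q) → (S, p)` can be made constant on the integral walls
`{x | x i ∈ ℤ}`, uniformly. -/
def KillW (S : Type) [MetricSpace S] (p : S) (m q : ℕ) : Prop :=
  ∀ C : ℝ, ∃ C' : ℝ, 0 ≤ C' ∧ ∀ f : (Fin m → ℝ) → (Fin q → ℝ) → S,
    (∀ u, LipN C (fun x => f x u)) → (∀ x, LipN C (fun u => f x u)) →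
    (∀ x u, Bd u → f x u = p) →
      ∃ g : ℝ → (Fin m → ℝ) → (Fin q → ℝ) → S, Hmt C' p f g ∧
        ∀ (x : Fin m → ℝ) (u : Fin q → ℝ) (i : Fin m) (k : ℤ), x i = k → g 1 x u = p

/-- Families of maps on the dyadic cells of the upper half space which fit together. -/
structure GoodN {m : ℕ} (C : ℝ) (G : ℤ → (Fin m → ℤ) → (Fin m → ℝ) → ℝ → S) : Prop where
  ls : ∀ j k h, LipN C (fun s => G j k s h)
  lh : ∀ j k s, Lip1 C (fun h => G j k s h)
  lr : ∀ j k s h i, InCube s → s i = 1 →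
    G j k s h = G j (Function.update k i (k i + 1)) (Function.update s i 0) h
  tb : ∀ j k (b : Fin m → ℤ), (∀ i, b i = 0 ∨ b i = 1) → ∀ s, InCube s →
    G j (fun i => 2 * k i + b i) s 1 = G (j + 1) k (fun i => (b i + s i) / 2) 0

/-- The assembled map. -/
noncomputable def asmN {m : ℕ} (G : ℤ → (Fin m → ℤ) → (Fin m → ℝ) → ℝ → S) (z : Hyp m) : S :=
  G (Int.log 2 z.y) (fun i => ⌊z.x i / 2 ^ (Int.log 2 z.y)⌋)
    (fun i => Int.fract (z.x i / 2 ^ (Int.log 2 z.y))) (z.y / 2 ^ (Int.log 2 z.y) - 1)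

/-- A homotopy through good families, `C`-Lipschitz in time. -/
def RelN {m : ℕ} (C : ℝ) (G G' : ℤ → (Fin m → ℤ) → (Fin m → ℝ) → ℝ → S) : Prop :=
  ∃ H : ℝ → ℤ → (Fin m → ℤ) → (Fin m → ℝ) → ℝ → S, (∀ t, GoodN C (H t)) ∧
    (∀ j k s h, Lip1 C (fun t => H t j k s h)) ∧
    (∀ j k s h, InCube s → 0 ≤ h → h ≤ 1 → H 0 j k s h = G j k s h) ∧
    (∀ j k s h, InCube s → 0 ≤ h → h ≤ 1 → H 1 j k s h = G' j k s h)

/-- The point with cell coordinates `(s, clip h)` in the cell `(j, k)`. -/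
noncomputable def cellPtN {m : ℕ} (j : ℤ) (k : Fin m → ℤ) (s : Fin m → ℝ) (h : ℝ) : Hyp m :=
  ⟨WithLp.toLp 2 (fun i => 2 ^ j * (k i + s i)), 2 ^ j * (1 + clip h), by
    have h1 := clip_nonneg h
    have h2 : (0 : ℝ) < 2 ^ j := by positivity
    positivity⟩

end

/-- Task TriN: the metric axioms. -/
def TaskTriN : Prop := ∀ (m : ℕ) (z w v : Hyp m), hdist z v ≤ hdist z w + hdist w v ∧
  (hdist z w = 0 → z = w) ∧ hdist z z = 0 ∧ hdist z w = hdist w z ∧ 0 ≤ hdist z w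

/-- Task RetrN. -/
def TaskRetrN : Prop := ∀ (m : ℕ) (R : ℝ), 0 ≤ R → ∃ ρ : Hyp m → Hyp m,
  (∀ z, hdist (ρ z) (origin m) ≤ R) ∧ (∀ z, hdist z (origin m) ≤ R → ρ z = z) ∧
    ∀ z w, hdist (ρ z) (ρ w) ≤ hdist z w

/-- Task AsmN. -/
def TaskAsmN : Prop := ∀ (m : ℕ) (S : Type) [MetricSpace S] (C Δ : ℝ), 0 ≤ C →
  (∀ a b : S, dist a b ≤ Δ) →
  ∃ C' : ℝ, ∀ G : ℤ → (Fin m → ℤ) → (Fin m → ℝ) → ℝ → S, GoodN C G →
    ∀ z w : Hyp m, dist (asmN G z) (asmN G w) ≤ C' * hdist z w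

/-- Task CellN. -/
def TaskCellN : Prop := ∀ (m : ℕ), ∃ C : ℝ, 0 ≤ C ∧ ∀ (S : Type) [MetricSpace S] (F : Hyp m → S),
  (∀ z w, dist (F z) (F w) ≤ hdist z w) →
    GoodN C (fun j k s h => F (cellPtN j k s h)) ∧
      ∀ z, asmN (fun j k s h => F (cellPtN j k s h)) z = F z

/-- Task NulOneN: a Lipschitz map `(I^q, ∂I^q) → (S, p)` representing the trivial element is
null-homotopic through a Lipschitz homotopy. -/
def TaskNulOneN : Prop := ∀ (S : Type) [MetricSpace S] [CompactSpace S], IsLNR S →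
  ∀ (q : ℕ) (p : S), Subsingleton (HomotopyGroup (Fin q) S p) →
    ∀ (C : ℝ) (l : (Fin q → ℝ) → S), LipN C l → (∀ u, Bd u → l u = p) →
      ∃ (C' : ℝ) (K : (Fin q → ℝ) → ℝ → S), (∀ t, LipN C' (fun u => K u t)) ∧
        (∀ u, Lip1 C' (fun t => K u t)) ∧ (∀ u, InCube u → K u 0 = l u) ∧ (∀ u, K u 1 = p) ∧
          ∀ u t, Bd u → K u t = p

/-- Task NulUnifN: the same with a uniform constant. -/
def TaskNulUnifN : Prop := TaskNulOneN → ∀ (S : Type) [MetricSpace S] [CompactSpace S], IsLNR S →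
  ∀ (q : ℕ) (p : S), Subsingleton (HomotopyGroup (Fin q) S p) → Kill S p 0 q

/-- Task KillStep. -/
def TaskKillStep : Prop := ∀ (S : Type) [MetricSpace S] (p : S) (m q : ℕ),
  Kill S p m q → Kill S p m (q + 1) → Kill S p (m + 1) q

/-- Task WallStep. -/
def TaskWallStep : Prop := ∀ (S : Type) [MetricSpace S] (p : S) (m q : ℕ),
  Kill S p m q → KillW S p m (q + 1) → KillW S p (m + 1) q

/-- Task Wall0. -/
def TaskWall0 : Prop := ∀ (S : Type) [MetricSpace S] (p : S) (q : ℕ), KillW S p 0 q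

/-- Task Stage1N: make a family constant on the horizontal slices. -/
def TaskStage1N : Prop := ∀ (S : Type) [MetricSpace S] (p : S) (m : ℕ), Kill S p m 0 →
  ∀ C : ℝ, ∃ C' : ℝ, 0 ≤ C' ∧ ∀ G : ℤ → (Fin m → ℤ) → (Fin m → ℝ) → ℝ → S, GoodN C G →
    ∃ G', RelN C' G G' ∧ GoodN C' G' ∧ ∀ j k s, G' j k s 0 = p ∧ G' j k s 1 = p

/-- Task Stage2N: make a family constant on the vertical walls. -/
def TaskStage2N : Prop := ∀ (S : Type) [MetricSpace S] (p : S) (m : ℕ), KillW S p m 1 →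
  ∀ C : ℝ, ∃ C' : ℝ, 0 ≤ C' ∧ ∀ G : ℤ → (Fin m → ℤ) → (Fin m → ℝ) → ℝ → S, GoodN C G →
    (∀ j k s, G j k s 0 = p ∧ G j k s 1 = p) →
      ∃ G', RelN C' G G' ∧ GoodN C' G' ∧ (∀ j k s, G' j k s 0 = p ∧ G' j k s 1 = p) ∧
        ∀ j k s h, Bd s → G' j k s h = p

/-- Task Stage3N: push the contents of the cells downwards. -/
def TaskStage3N : Prop := ∀ (S : Type) [MetricSpace S] (p : S) (m : ℕ) (C : ℝ), 0 ≤ C →
  ∃ C' : ℝ, 0 ≤ C' ∧ ∀ G : ℤ → (Fin (m + 1) → ℤ) → (Fin (m + 1) → ℝ) → ℝ → S, GoodN C G →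
    (∀ j k s, G j k s 0 = p ∧ G j k s 1 = p) → (∀ j k s h, Bd s → G j k s h = p) →
      RelN C' G (fun _ _ _ _ => p)

/-- Task TransN. -/
def TaskTransN : Prop := ∀ (S : Type) [MetricSpace S] (m : ℕ) (C C' : ℝ), 0 ≤ C → 0 ≤ C' →
  ∀ (G G' G'' : ℤ → (Fin m → ℤ) → (Fin m → ℝ) → ℝ → S), RelN C G G' → RelN C' G' G'' →
    RelN (2 * C + 2 * C') G G''

end Pool.Agent.H261R3.LN
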